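import Pool.Agent.N931.PN.Stm3
import Pool.Agent.N144.EW.DetA
import Pool.Agent.N690.EW.NXF
import Pool.Agent.H389R2.NS.SumSp

/-!
Project PN (helper931), part WFEW (helper459): the spectral weight of the sets of edges near the
boundary which meet few cells.
-/

set_option autoImplicit false

namespace Pool.Agent.N459.PN.WFEW

open H974 H12S H389NS H984N H984P H342P Finset
open Pool.Agent.N116.EW Pool.Agent.N931.PN
open H342L (cdist Curve)

theorem JJ_congr {D : Dm} {F F' : Finset Edg} (h1 : D.len F' = D.len F)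
    (h2 : ∀ k ≤ D.len F, D.walk F' k = D.walk F k) : JJ D F' = JJ D F := by
  unfold JJ
  rw [h1]
  congr 1
  refine Finset.image_congr ?_
  intro k hk
  have hk' : k < D.len F := by simpa using hk
  simp only [h2 k hk'.le]

theorem curve_congr (R : Rect) (δ : ℝ) {F F' : Finset Edg}
    (h1 : (R.dm δ).len F' = (R.dm δ).len F)
    (h2 : ∀ k ≤ (R.dm δ).len F, (R.dm δ).walk F' k = (R.dm δ).walk F k) :
    R.curve δ F' = R.curve δ F := by
  ext s
  unfold Rect.curve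
  rw [h1]
  change pos δ ((R.dm δ).walk F' 0) + ∑ k ∈ Finset.range ((R.dm δ).len F),
      ((clamp (s * ((R.dm δ).len F) - k) : ℝ) : ℂ) * (pos δ ((R.dm δ).walk F' (k + 1)) -
        pos δ ((R.dm δ).walk F' k)) =
    pos δ ((R.dm δ).walk F 0) + ∑ k ∈ Finset.range ((R.dm δ).len F),
      ((clamp (s * ((R.dm δ).len F) - k) : ℝ) : ℂ) * (pos δ ((R.dm δ).walk F (k + 1)) -
        pos δ ((R.dm δ).walk F k))
  rw [h2 0 (Nat.zero_le _)]
  congr 1
  refine Finset.sum_congr rfl fun k hk => ?_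
  have hk' := Finset.mem_range.1 hk
  rw [h2 k hk'.le, h2 (k + 1) hk']

/-- the total spectral weight -/
theorem total (S : Finset Edg) (h : Finset Edg → ℝ) (hh : ∀ F, |h F| ≤ 1)
    (A : Finset (Finset Edg)) (hA : A ⊆ S.powerset) : ∑ T ∈ A, (wal S h T) ^ 2 ≤ 1 := by
  calc ∑ T ∈ A, (wal S h T) ^ 2 ≤ ∑ T ∈ S.powerset, (wal S h T) ^ 2 :=
        Finset.sum_le_sum_of_subset_of_nonneg hA fun _ _ _ => sq_nonneg _
    _ = Ex hp S (fun F => (h F) ^ 2) := SumSpAux.parseval S h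
    _ ≤ Ex hp S (fun _ => (1 : ℝ)) := by
        refine Ex_mono SSx.hp_ok fun F _ => ?_
        have h1 := hh F
        rw [← sq_abs]
        have h2 := abs_nonneg (h F)
        nlinarith
    _ = 1 := Ex_const _ _ _

/-- the numerical part -/
theorem num {C c b δ : ℝ} (hC : 0 < C) (hc : 0 < c) (hb : 0 < b) (hδ : 0 < δ) {m w J R' : ℕ}
    (hw : 1 ≤ w) (hw2 : (w : ℝ) ≤ 2 * (b ^ 30 / δ)) (hm : b ^ 3 / δ ≤ m)
    (hJ : (J : ℝ) * b ^ 4 ≤ 2) (hwR : w ≤ R') (hR : c * m ≤ 2 * R') :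
    (J : ℝ) ^ 2 * (C * ((w : ℝ) / R') ^ (1 / 3 : ℝ)) ≤ 4 * (C * (4 / c) ^ (1 / 3 : ℝ)) * b := by
  have hR0 : (0 : ℝ) < R' := by
    have h1 : 0 < R' := by omega
    exact_mod_cast h1
  have h1 : (w : ℝ) / R' ≤ (4 / c) * b ^ 27 := by
    rw [div_le_iff₀ hR0]
    have h2 : c * (b ^ 3 / δ) ≤ 2 * R' := (mul_le_mul_of_nonneg_left hm hc.le).trans hR
    have h3 : 2 * (b ^ 30 / δ) = (4 / c) * b ^ 27 * (c * (b ^ 3 / δ) / 2) := by
      field_simp
      ring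
    calc (w : ℝ) ≤ 2 * (b ^ 30 / δ) := hw2
      _ = (4 / c) * b ^ 27 * (c * (b ^ 3 / δ) / 2) := h3
      _ ≤ (4 / c) * b ^ 27 * R' := by
          refine mul_le_mul_of_nonneg_left ?_ (by positivity)
          linarith
  have h2 : ((w : ℝ) / R') ^ (1 / 3 : ℝ) ≤ (4 / c) ^ (1 / 3 : ℝ) * b ^ 9 := by
    calc ((w : ℝ) / R') ^ (1 / 3 : ℝ) ≤ ((4 / c) * b ^ 27) ^ (1 / 3 : ℝ) :=
          Real.rpow_le_rpow (by positivity) h1 (by norm_num)
      _ = (4 / c) ^ (1 / 3 : ℝ) * (b ^ 27) ^ (1 / 3 : ℝ) :=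
          Real.mul_rpow (by positivity) (by positivity)
      _ = (4 / c) ^ (1 / 3 : ℝ) * b ^ 9 := by
          congr 1
          have h3 : b ^ 27 = (b ^ 9) ^ (3 : ℕ) := by ring
          have h4 : (1 / 3 : ℝ) = ((3 : ℕ) : ℝ)⁻¹ := by norm_num
          rw [h3, h4, Real.pow_rpow_inv_natCast (by positivity) (by norm_num)]
  have h5 : (J : ℝ) ^ 2 * b ^ 9 ≤ 4 * b := by
    have h6 : (J : ℝ) ^ 2 * b ^ 9 = ((J : ℝ) * b ^ 4) ^ 2 * b := by ring
    rw [h6]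
    refine mul_le_mul_of_nonneg_right ?_ hb.le
    have h7 : 0 ≤ (J : ℝ) * b ^ 4 := by positivity
    nlinarith
  calc (J : ℝ) ^ 2 * (C * ((w : ℝ) / R') ^ (1 / 3 : ℝ))
      ≤ (J : ℝ) ^ 2 * (C * ((4 / c) ^ (1 / 3 : ℝ) * b ^ 9)) := by gcongr
    _ = (C * (4 / c) ^ (1 / 3 : ℝ)) * ((J : ℝ) ^ 2 * b ^ 9) := by ring
    _ ≤ (C * (4 / c) ^ (1 / 3 : ℝ)) * (4 * b) := by
        refine mul_le_mul_of_nonneg_left h5 (by positivity)
    _ = 4 * (C * (4 / c) ^ (1 / 3 : ℝ)) * b := by ring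

/-- the trivial case -/
theorem num2 {c b δ : ℝ} (hc : 0 < c) (hb : 0 < b) (hb1 : b ≤ 1) (hδ : 0 < δ) {m w : ℕ}
    (hw2 : (w : ℝ) ≤ 2 * (b ^ 30 / δ)) (hm : b ^ 3 / δ ≤ m) (hR : c * m ≤ 2 * w) :
    1 ≤ 4 / c * b := by
  have h1 : c * (b ^ 3 / δ) ≤ 4 * (b ^ 30 / δ) := by
    have h2 := mul_le_mul_of_nonneg_left hm hc.le
    linarith
  have h2 : c * b ^ 3 ≤ 4 * b ^ 30 := by
    have h3 : c * (b ^ 3 / δ) * δ ≤ 4 * (b ^ 30 / δ) * δ := mul_le_mul_of_nonneg_right h1 hδ.le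
    have h4 : c * (b ^ 3 / δ) * δ = c * b ^ 3 := by field_simp
    have h5 : 4 * (b ^ 30 / δ) * δ = 4 * b ^ 30 := by field_simp
    rwa [h4, h5] at h3
  have h3 : c ≤ 4 * b ^ 27 := by
    have h4 : c * b ^ 3 ≤ (4 * b ^ 27) * b ^ 3 := by
      calc c * b ^ 3 ≤ 4 * b ^ 30 := h2
        _ = (4 * b ^ 27) * b ^ 3 := by ring
    exact le_of_mul_le_mul_right h4 (by positivity)
  have h4 : b ^ 27 ≤ b := by
    calc b ^ 27 = b ^ 26 * b := by ring
      _ ≤ 1 * b := mul_le_mul_of_nonneg_right (pow_le_one₀ hb.le hb1) hb.le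
      _ = b := one_mul b
  rw [div_mul_eq_mul_div, le_div_iff₀ hc]
  linarith

theorem core (hNX : S_NX) (hSSB : S_SSB) (hSTOP : S_STOP) (hHX : S_HX) (hCNT : S_CNT) :
    S_WFEW := by
  intro R
  obtain ⟨κ, S, δ0, hκ, hS, hδ0, hδ01, hshape⟩ := R.shape
  obtain ⟨C, c, hC, hc, hnx⟩ := hNX κ hκ
  refine ⟨max (4 / c) (4 * (C * (4 / c) ^ (1 / 3 : ℝ))), min δ0 S,
    lt_max_of_lt_left (by positivity), lt_min hδ0 hS, ?_⟩
  intro δ b hδ hle hb hb1 hbδ f hLp m w J hw hw2 hm hJ L hL hLb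
  have hδ1 : δ ≤ δ0 := hle.trans (min_le_left _ _)
  have hδ2 : δ ≤ S := hle.trans (min_le_right _ _)
  have hsh := hshape δ hδ hδ1
  have hn1 : 1 ≤ S / δ := by
    rw [le_div_iff₀ hδ, one_mul]
    exact hδ2
  obtain ⟨R', hR'⟩ : ∃ R' : ℕ, R' = ⌊c * m⌋₊ := ⟨_, rfl⟩
  have hcm : 0 ≤ c * (m : ℝ) := by positivity
  have hR1 : (R' : ℝ) ≤ c * m := by
    rw [hR']
    exact Nat.floor_le hcm
  have hR2 : c * m < R' + 1 := by
    rw [hR']
    exact Nat.lt_floor_add_one _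
  by_cases hcase : w ≤ R'
  · have h1 : ∀ e ∈ L, Pr hp (R.dm δ).edges (fun Y => ∃ e' ∈ JJ (R.dm δ) Y, cell w e' = cell w e) ≤
        C * ((w : ℝ) / R') ^ (1 / 3 : ℝ) := by
      intro e he
      have h2 : Pr hp (R.dm δ).edges (fun Y => ∃ e' ∈ JJ (R.dm δ) Y, cell w e' = cell w e) ≤
          Pr hp (R.dm δ).edges (NX (R.dm δ) (src e) w R') := by
        refine Pr_mono SSx.hp_ok ?_
        rintro F hF ⟨e', he', hce⟩
        exact hHX (R.dm δ) hsh.ok F hF (src e) w R' hw ⟨e', he', hCNT.1 w hw e e' hce⟩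
      refine h2.trans ?_
      refine hnx (S / δ) (R.dm δ) hn1 hsh (src e) w R' (Pool.Agent.N144.EW.src_in (hL he)) hw
        (hLb e he).1.le hcase ?_
      refine hR1.trans (mul_le_mul_of_nonneg_left ?_ hc.le)
      have h3 := (hLb e he).2
      exact_mod_cast h3
    have h2 := hSSB (R.dm δ).edges L hL (hf R δ f) (fun F _ => hLp.2 _) (cell w) (JJ (R.dm δ))
      (fun Y _ e he => (Finset.mem_filter.1 he).2) (fun Y Y' hY hY' h => by
        obtain ⟨h3, h4⟩ := hSTOP (R.dm δ) hsh.ok Y Y' hY hY' h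
        refine ⟨JJ_congr h3 h4, ?_⟩
        unfold hf
        rw [curve_congr R δ h3 h4]) (C * ((w : ℝ) / R') ^ (1 / 3 : ℝ)) (by positivity) h1 J
    refine h2.trans ?_
    have hR0 : 1 ≤ R' := by omega
    have hR3 : c * m ≤ 2 * R' := by
      have h5 : (1 : ℝ) ≤ R' := by exact_mod_cast hR0
      linarith
    refine (num hC hc hb hδ hw hw2 hm hJ hcase hR3).trans ?_
    exact mul_le_mul_of_nonneg_right (le_max_right _ _) hb.le
  · have hR3 : c * m ≤ 2 * w := by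
      have h5 : (R' : ℝ) + 1 ≤ w := by
        have h6 : R' + 1 ≤ w := by omega
        exact_mod_cast h6
      have h6 : (0 : ℝ) ≤ w := by positivity
      linarith
    refine (total (R.dm δ).edges (hf R δ f) (fun F => hLp.2 _) _ ?_).trans ?_
    · exact (Finset.filter_subset _ _).trans (Finset.powerset_mono.2 hL)
    · refine (num2 hc hb hb1 hδ hw2 hm hR3).trans ?_
      exact mul_le_mul_of_nonneg_right (le_max_left _ _) hb.le

/-- PN/WFEW -/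
theorem main : S_SSB → S_STOP → S_HX → S_CNT → S_WFEW := core Pool.Agent.N690.EW.nx

end Pool.Agent.N459.PN.WFEW
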